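import Mathlib
import Pool.Agent.Y947.RL.Stm2
import Pool.Agent.Y947.DP.Rad
import Pool.Agent.Y947.DL.Poly

/-!
# Job RL AN1: contraction of one finite set of complex numbers
-/

set_option autoImplicit false

open Finset Polynomial Module Metric Pool.Agent.H388SL Pool.Agent.Y947.DL
  Pool.Agent.Y947.DP

namespace Pool.Agent.Y286.RL

section

variable {ι : Type*} [Fintype ι] {b : ι → ℂ}

/-- `log⁺` of the product, defined everywhere -/
noncomputable def GQ (b : ι → ℂ) (x : ℂ) : ℝ := Real.posLog ‖∏ j, (1 - x * starRingEnd ℂ (b j))‖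

lemma GQ_cont (b : ι → ℂ) : Continuous (GQ b) := by
  unfold GQ
  apply Real.continuous_posLog.comp
  fun_prop

lemma gg_eq' (hb : ∀ j, ‖b j‖ ≤ 1) {x : ℂ} (hx : ‖x‖ < 1) : gg b x = GQ b x := by
  unfold gg GQ HH
  rw [Real.posLog_apply, norm_prod, Real.log_prod]
  · congr 1
    ring
  · intro j _
    exact norm_ne_zero_iff.mpr (one_sub_ne (norm_mul_conj_lt hx (hb j)))

lemma avg_mono_lt' (hb : ∀ j, ‖b j‖ ≤ 1) {R r : ℝ} (hR0 : 0 < R) (hRr : R < r) (hr1 : r < 1) :
    Real.circleAverage (gg b) 0 R ≤ Real.circleAverage (gg b) 0 r := by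
  have hr0 : 0 < r := hR0.trans hRr
  have hsub : ∀ ζ ∈ sphere (0:ℂ) |R|, ζ ∈ ball (0:ℂ) r := by
    intro ζ hζ
    rw [mem_sphere_zero_iff_norm, abs_of_pos hR0] at hζ
    rw [mem_ball_zero_iff, hζ]; exact hRr
  have hc := gg_CS hb hr0 hr1
  have hd : DiffContOnCl ℂ (CP r (gg b)) (ball 0 |R|) := by
    apply DifferentiableOn.diffContOnCl
    rw [abs_of_pos hR0, closure_ball _ hR0.ne']
    exact (CP_diff hc).mono (closedBall_subset_ball hRr)
  have hdc : ContinuousOn (CP r (gg b)) (sphere 0 |R|) := by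
    apply hd.continuousOn.mono
    rw [abs_of_pos hR0, closure_ball _ hR0.ne']
    exact sphere_subset_closedBall
  have h1 := hd.circleAverage
  have h2 := Complex.reCLM.circleAverage_comp_comm hdc.circleIntegrable'
  rw [h1, Complex.reCLM_apply, CP_re hc (mem_ball_self hr0), PI_zero hr0] at h2
  rw [← h2]
  apply Real.circleAverage_mono (gg_CS hb hR0 (hRr.trans hr1)).ci
  · exact ContinuousOn.circleIntegrable' (Complex.continuous_re.comp_continuousOn hdc)
  · intro ζ hζ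
    have hζ' := hsub ζ hζ
    have h3 : (⇑Complex.reCLM ∘ CP r (gg b)) ζ = PI r (gg b) ζ := CP_re hc hζ'
    rw [h3]
    unfold gg
    apply max_le
    · exact PI_nonneg hc hζ' (fun x _ => le_max_left _ _)
    · rw [← PI_HH hb hr0 hr1 hζ']
      exact PI_mono (HH_CS hb hr0 hr1).neg hc hζ' (fun x _ => le_max_right _ _)

lemma avg_le_one' (hb : ∀ j, ‖b j‖ ≤ 1) {R : ℝ} (hR0 : 0 < R) (hR1 : R < 1) :
    Real.circleAverage (gg b) 0 R ≤ Real.circleAverage (GQ b) 0 1 := by
  have hcont : Continuous (Real.circleAverage (GQ b) 0) := Real.Continuous.circleAverage (GQ_cont b)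
  have h1 : Filter.Tendsto (Real.circleAverage (GQ b) 0) (nhdsWithin 1 (Set.Iio 1))
      (nhds (Real.circleAverage (GQ b) 0 1)) := hcont.continuousAt.tendsto.mono_left nhdsWithin_le_nhds
  apply ge_of_tendsto h1
  have h2 : Set.Ioo R 1 ∈ nhdsWithin (1:ℝ) (Set.Iio 1) := Ioo_mem_nhdsLT hR1
  filter_upwards [h2] with r hr
  refine (avg_mono_lt' hb hR0 hr.1 hr.2).trans (le_of_eq ?_)
  apply Real.circleAverage_congr_sphere
  intro x hx
  apply gg_eq' hb
  rw [mem_sphere_zero_iff_norm, abs_of_pos (hR0.trans hr.1)] at hx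
  rw [hx]; exact hr.2

lemma avg_le_card' (hb : ∀ j, ‖b j‖ ≤ 1) {R : ℝ} (hR0 : 0 < R) (hR1 : R < 1) :
    Real.circleAverage (gg b) 0 R ≤ Fintype.card ι * Real.log 2 := by
  apply Real.circleAverage_mono_on_of_le_circle (gg_CS hb hR0 hR1).ci
  intro x hx
  have hx1 : ‖x‖ < 1 := by
    rw [mem_sphere_zero_iff_norm, abs_of_pos hR0] at hx
    rw [hx]; exact hR1
  unfold gg HH
  apply max_le
  · exact mul_nonneg (Nat.cast_nonneg _) (Real.log_nonneg (by norm_num))
  · have h3 : ∀ j ∈ (Finset.univ : Finset ι),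
        Real.log ‖1 - x * starRingEnd ℂ (b j)‖ ≤ Real.log 2 := by
      intro j _
      have h4 := norm_mul_conj_lt hx1 (hb j)
      apply Real.log_le_log (norm_pos_iff.mpr (one_sub_ne h4))
      refine (norm_sub_le _ _).trans ?_
      rw [norm_one]
      linarith
    have h4 := Finset.sum_le_sum h3
    rw [Finset.sum_const, Finset.card_univ, nsmul_eq_mul] at h4
    linarith

end

/-- the mean of `log⁺` of the product over the finite set -/
noncomputable def av (S : Finset ℂ) : ℝ :=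
  Real.circleAverage (fun x : ℂ => Real.posLog ‖∏ z ∈ S, (x - z)‖) 0 1

lemma av_cont (S : Finset ℂ) : Continuous (fun x : ℂ => Real.posLog ‖∏ z ∈ S, (x - z)‖) := by
  apply Real.continuous_posLog.comp
  fun_prop

lemma av_nonneg (S : Finset ℂ) : 0 ≤ av S :=
  Real.circleAverage_nonneg_of_nonneg fun _ _ => Real.posLog_nonneg

lemma avg_le_av (S : Finset ℂ) {R : ℝ} (hR0 : 0 < R) (hR1 : R < 1) :
    Real.circleAverage (gg (fun z : S => H388SL.refl (z : ℂ))) 0 R ≤ av S := by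
  have hb : ∀ z : S, ‖H388SL.refl (z : ℂ)‖ ≤ 1 := fun z => norm_refl_le _
  refine (avg_le_one' hb hR0 hR1).trans ?_
  unfold av
  apply Real.circleAverage_mono
  · exact ContinuousOn.circleIntegrable' (GQ_cont _).continuousOn
  · exact ContinuousOn.circleIntegrable' (av_cont S).continuousOn
  · intro x hx
    rw [mem_sphere_zero_iff_norm, abs_one] at hx
    apply Real.posLog_le_posLog (norm_nonneg _)
    rw [norm_prod, norm_prod, Finset.prod_coe_sort S
      (fun z : ℂ => ‖1 - x * starRingEnd ℂ (H388SL.refl z)‖)]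
    apply Finset.prod_le_prod
    · intro σ _; exact norm_nonneg _
    · intro σ _
      rw [← unit_factor hx σ]
      exact le_mul_of_one_le_right (norm_nonneg _) (le_max_left _ _)

theorem an1 : Pool.Agent.Y947.RL.S_AN1 := by
  refine ⟨10 ^ 15, by norm_num, ?_⟩
  intro S hS κ hκ0 hκ1
  have hav := av_nonneg S
  set b : S → ℂ := fun z => H388SL.refl (z : ℂ) with hbdef
  have hb : ∀ z : S, ‖b z‖ ≤ 1 := fun z => norm_refl_le _
  have hcard : Fintype.card S = S.card := Fintype.card_coe S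
  have hn : 0 < S.card := hS.card_pos
  have hn1 : (1:ℝ) ≤ S.card := by exact_mod_cast hn
  obtain ⟨H, hdom, hH0⟩ := exists_dom hb (by rw [hcard]; exact hn)
  have hR1 : 1 - 1 / (16 * (Fintype.card S : ℝ)) < 1 := by
    rw [hcard]
    have : 0 < 1 / (16 * (S.card : ℝ)) := by positivity
    linarith
  have hR0 : 0 < 1 - 1 / (16 * (Fintype.card S : ℝ)) := by
    rw [hcard]
    have : 1 / (16 * (S.card : ℝ)) ≤ 1 / 16 := by
      apply one_div_le_one_div_of_le (by norm_num); linarith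
    linarith
  have ha1 := avg_le_av S hR0 hR1
  have ha2 := avg_le_card' hb hR0 hR1
  rw [← hbdef] at ha1
  have hH4 : H 0 ≤ 4 * Fintype.card S := by
    have h2 := Real.log_two_lt_d9
    have h3 : (1:ℝ) ≤ Fintype.card S := by rw [hcard]; exact hn1
    nlinarith
  obtain ⟨ε, hε, hη, hE⟩ := contract2 hdom (by rw [hcard]; exact hn) hH4 hκ0 hκ1
  have hsumD : ∑ z : S, (1 - ‖b z‖) = ∑ z ∈ S, (1 - ‖H388SL.refl z‖) :=
    Finset.sum_coe_sort S (fun z : ℂ => 1 - ‖H388SL.refl z‖)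
  have hD0 : 0 ≤ ∑ z ∈ S, (1 - ‖H388SL.refl z‖) :=
    Finset.sum_nonneg fun z _ => sub_nonneg.mpr (norm_refl_le z)
  rw [hsumD] at hη hE
  set D := ∑ z ∈ S, (1 - ‖H388SL.refl z‖) with hDdef
  have hWle : 1 + H 0 + D ≤ 4 * (1 + av S + D) := by linarith
  have hlogκ : 0 ≤ Real.log (1 / κ) := Real.log_nonneg (by rw [le_div_iff₀ hκ0]; linarith)
  classical
  set e : ℂ → ℝ := fun z => if h : z ∈ S then ε ⟨z, h⟩ else 1 / 2 with hedef
  have hee : ∀ z : S, e (z : ℂ) = ε z := by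
    intro z
    simp only [hedef, z.2, dif_pos]
  refine ⟨e, ?_, ?_, ?_⟩
  · intro z hz
    have h1 := hee ⟨z, hz⟩
    have h2 : e z = ε ⟨z, hz⟩ := h1
    rw [h2]
    exact hε _
  · have h1 : ∑ z ∈ S, e z = ∑ z : S, ε z := by
      rw [← Finset.sum_coe_sort S e]
      exact Finset.sum_congr rfl fun z _ => hee z
    rw [h1]
    refine hη.trans ?_
    apply mul_le_mul_of_nonneg_left _ hκ0.le
    show _ ≤ 10 ^ 15 * (1 + av S + D)
    nlinarith
  · have h1 : ∑ z ∈ S, ∑ w ∈ S, -Real.log ‖1 - (((1 - e z) * (1 - e w) : ℝ) : ℂ) *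
        (H388SL.refl z * starRingEnd ℂ (H388SL.refl w))‖ =
        ∑ i : S, ∑ j : S, -Real.log ‖1 - (((1 - ε i) * (1 - ε j) : ℝ) : ℂ) *
          (b i * starRingEnd ℂ (b j))‖ := by
      rw [← Finset.sum_coe_sort S (fun z => ∑ w ∈ S, -Real.log ‖1 - (((1 - e z) * (1 - e w) : ℝ) : ℂ) *
        (H388SL.refl z * starRingEnd ℂ (H388SL.refl w))‖)]
      refine Finset.sum_congr rfl fun z _ => ?_
      rw [← Finset.sum_coe_sort S (fun w => -Real.log ‖1 - (((1 - e z) * (1 - e w) : ℝ) : ℂ) *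
        (H388SL.refl (z : ℂ) * starRingEnd ℂ (H388SL.refl w))‖)]
      refine Finset.sum_congr rfl fun w _ => ?_
      rw [hee z, hee w]
    rw [h1]
    refine hE.trans ?_
    rw [hcard]
    apply mul_le_mul_of_nonneg_left _ (Nat.cast_nonneg _)
    apply mul_le_mul_of_nonneg_right _ (by linarith)
    show _ ≤ 10 ^ 15 * (1 + av S + D)
    nlinarith

end Pool.Agent.Y286.RL
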